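import Pool.Agent.H31.SW.TargetsL
import Pool.Agent.H31.SW.Tools2

set_option autoImplicit false

open NumberField NumberField.InfinitePlace MeasureTheory Set Filter Complex
open scoped Topology

namespace Pool.Agent.H49.SWL

open Pool.Agent.H31.SW
open Pool.Agent.H29.DW (dg Rl lf)

private theorem n1_re {n : ℕ} {B : ℝ} {S : Set ℂ} {f : ℂ → ℂ} (h : DB n (fun _ => B) S f) :
    DB n (fun _ => B) S (fun z => (((f z).re : ℝ) : ℂ)) := by
  have h1 := (h.add h.conj).const_mul (1 / 2)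
  have e : (fun z => (((f z).re : ℝ) : ℂ)) =
      fun z => (1 / 2 : ℂ) * (f z + (starRingEnd ℂ) (f z)) := by
    funext z
    rw [Complex.re_eq_add_conj]
    ring
  rw [e]
  refine h1.mono subset_rfl fun z _ => ?_
  simp
  linarith

private theorem n1_im {n : ℕ} {B : ℝ} {S : Set ℂ} {f : ℂ → ℂ} (h : DB n (fun _ => B) S f) :
    DB n (fun _ => B) S (fun z => (((f z).im : ℝ) : ℂ)) := by
  have h1 : DB n (fun _ => B) S (fun z => -I * f z) :=
    (h.const_mul (-I)).mono subset_rfl fun z _ => by simp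
  have h2 := n1_re h1
  have e : (fun z => (((f z).im : ℝ) : ℂ)) = fun z => (((-I * f z).re : ℝ) : ℂ) := by
    funext z
    simp
  rw [e]
  exact h2

theorem pf_N1 (hIB : W_IB) : W_N1 := by
  intro n ρ hρ
  obtain ⟨C₀, hC₀, hD⟩ := DB.hol_deriv n (3 / 2 * ρ) (2 * ρ) (by linarith) (by linarith)
  refine ⟨4 * (2 ^ n * C₀), by positivity, ?_⟩
  intro r w₀ Ψ p g G P hG hP hΨ hRl hPb hg
  have hopen : IsOpen (Metric.ball w₀ (2 * ρ)) := Metric.isOpen_ball
  have hp0 : ∀ w ∈ Metric.ball w₀ (2 * ρ), p w ≠ 0 := by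
    intro w hw h0
    have := hPb w hw
    rw [h0, norm_zero] at this
    linarith
  have hΨd : DifferentiableOn ℂ Ψ (Metric.ball w₀ (2 * ρ)) := fun w hw =>
    (hΨ w hw).differentiableAt.differentiableWithinAt
  have hpd : DifferentiableOn ℂ p (Metric.ball w₀ (2 * ρ)) :=
    (hΨd.deriv hopen).congr fun w hw => ((hΨ w hw).deriv).symm
  have hvd : DifferentiableOn ℂ (fun w => (p w)⁻¹) (Metric.ball w₀ (2 * ρ)) :=
    hpd.inv hp0
  have hv : ∀ w ∈ Metric.ball w₀ (2 * ρ),
      HasDerivAt (fun w => (p w)⁻¹) (deriv (fun w => (p w)⁻¹) w) w := fun w hw =>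
    (hvd.differentiableAt (hopen.mem_nhds hw)).hasDerivAt
  have hvb : ∀ w ∈ Metric.ball w₀ (2 * ρ), ‖(fun w => (p w)⁻¹) w‖ ≤ 1 / P := by
    intro w hw
    simp only [norm_inv]
    rw [one_div]
    exact inv_anti₀ hP (hPb w hw)
  obtain ⟨d1, d2⟩ := hD w₀ (1 / P) (fun w => (p w)⁻¹) (deriv (fun w => (p w)⁻¹))
    (by positivity) hv hvb
  set v : ℂ → ℂ := fun w => (p w)⁻¹ with hvdef
  set v' : ℂ → ℂ := deriv v with hv'def
  obtain ⟨g₁, g₂, hg12, hg1, hg2⟩ := hg.succ
  have hgn : DS n G w₀ ρ g := hg.of_le (Nat.le_succ n)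
  have hsub1 : Metric.closedBall w₀ ρ ⊆ Metric.ball w₀ (3 / 2 * ρ) :=
    Metric.closedBall_subset_ball (by linarith)
  have hsub2 : Metric.ball w₀ (3 / 2 * ρ) ⊆ Metric.ball w₀ (2 * ρ) :=
    Metric.ball_subset_ball (by linarith)
  have hEc : ContinuousOn (fun w => EE (Ψ w)) (Metric.ball w₀ (3 / 2 * ρ)) :=
    continuous_EE.comp_continuousOn (hΨd.continuousOn.mono hsub2)
  have hpc : ContinuousOn p (Metric.ball w₀ (3 / 2 * ρ)) := hpd.continuousOn.mono hsub2
  have hib := hIB r (Metric.ball w₀ (3 / 2 * ρ)) (Metric.closedBall w₀ ρ) (fun w => EE (Ψ w))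
    (fun w => -I * ((p w).re : ℝ) * EE (Ψ w)) (fun w => I * ((p w).im : ℝ) * EE (Ψ w))
    g g₁ g₂ v v' Metric.isOpen_ball (isCompact_closedBall w₀ ρ) hsub1
    (fun w hw => hd_EE (hΨ w (hsub2 hw)))
    ((continuousOn_const.mul (Complex.continuous_ofReal.comp_continuousOn
      (Complex.continuous_re.comp_continuousOn hpc))).mul hEc)
    ((continuousOn_const.mul (Complex.continuous_ofReal.comp_continuousOn
      (Complex.continuous_im.comp_continuousOn hpc))).mul hEc)
    hg12 hg1.continuous hg2.continuous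
    (fun w hw => hg.eq_zero (by rwa [Metric.mem_closedBall, dist_eq_norm, not_le] at hw))
    (fun w hw => hv w (hsub2 hw))
    (fun w hw hw' => Rl_inv (hRl w (hsub2 hw) hw'))
  refine ⟨fun w => -I * ((g₁ w * (((v w).re : ℝ) : ℂ) + g₂ w * (((v w).im : ℝ) : ℂ)) +
    (dg r : ℂ) * (g w * (((v' w).re : ℝ) : ℂ))), ?_, ?_⟩
  · have k1 := hg1.mul_DB' (n1_re d1) Metric.isOpen_ball hsub1
    have k2 := hg2.mul_DB' (n1_im d1) Metric.isOpen_ball hsub1
    have k3 := (hgn.mul_DB' (n1_re d2) Metric.isOpen_ball hsub1).const_mul (dg r : ℂ)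
    have k4 := ((k1.add k2).add k3).const_mul (-I)
    refine DS.mono k4 ?_ (by positivity) le_rfl
    have h5 : ‖(dg r : ℂ)‖ ≤ 2 := by
      cases r <;> simp [dg]
    have h6 : 0 ≤ 2 ^ n * (G * (C₀ * (1 / P))) := by positivity
    rw [norm_neg, Complex.norm_I, one_mul]
    calc 2 ^ n * (G * (C₀ * (1 / P))) + 2 ^ n * (G * (C₀ * (1 / P))) +
          ‖(dg r : ℂ)‖ * (2 ^ n * (G * (C₀ * (1 / P))))
        ≤ 2 ^ n * (G * (C₀ * (1 / P))) + 2 ^ n * (G * (C₀ * (1 / P))) +
          2 * (2 ^ n * (G * (C₀ * (1 / P)))) := by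
          gcongr
      _ = 4 * (2 ^ n * C₀) * G / P := by
          ring
  · have e1 : ∀ w, ((((v w).re : ℝ) : ℂ) * (-I * ((p w).re : ℝ) * EE (Ψ w)) +
        (((v w).im : ℝ) : ℂ) * (I * ((p w).im : ℝ) * EE (Ψ w))) * g w =
        -I * (g w * EE (Ψ w)) := by
      intro w
      by_cases hw : w ∈ Metric.ball w₀ (2 * ρ)
      · have h1 : (v w).re * (p w).re - (v w).im * (p w).im = 1 := by
          rw [← Complex.mul_re]
          have : v w * p w = 1 := inv_mul_cancel₀ (hp0 w hw)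
          rw [this, Complex.one_re]
        have h2 : (((v w).re : ℝ) : ℂ) * ((p w).re : ℝ) - (((v w).im : ℝ) : ℂ) * ((p w).im : ℝ) =
            1 := by
          exact_mod_cast congrArg (fun x : ℝ => (x : ℂ)) h1
        calc _ = -I * ((((v w).re : ℝ) : ℂ) * ((p w).re : ℝ) -
              (((v w).im : ℝ) : ℂ) * ((p w).im : ℝ)) * (g w * EE (Ψ w)) := by ring
          _ = _ := by rw [h2]; ring
      · have h0 : g w = 0 := by
          apply hg.eq_zero
          rw [Metric.mem_ball, dist_eq_norm, not_lt] at hw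
          linarith
        rw [h0]
        ring
    have e2 : itg r (fun w => ((((v w).re : ℝ) : ℂ) * (-I * ((p w).re : ℝ) * EE (Ψ w)) +
        (((v w).im : ℝ) : ℂ) * (I * ((p w).im : ℝ) * EE (Ψ w))) * g w) =
        -I * itg r (fun w => g w * EE (Ψ w)) := by
      rw [← itg_const_mul]
      exact itg_congr fun w _ => e1 w
    rw [e2] at hib
    have e3 : itg r (fun w => g w * EE (Ψ w)) = -I * itg r (fun w => EE (Ψ w) *
        ((((v w).re : ℝ) : ℂ) * g₁ w + (((v w).im : ℝ) : ℂ) * g₂ w +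
        ((dg r * (v' w).re : ℝ) : ℂ) * g w)) := by
      have h1 := congrArg (fun z => I * z) hib
      have h2 : I * (-I * itg r (fun w => g w * EE (Ψ w))) =
          itg r (fun w => g w * EE (Ψ w)) := by
        rw [← mul_assoc, mul_neg, Complex.I_mul_I, neg_neg, one_mul]
      rw [h2] at h1
      rw [h1]
      ring
    rw [e3, ← itg_const_mul]
    refine itg_congr fun w _ => ?_
    push_cast
    ring

end Pool.Agent.H49.SWL
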